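import Pool.Agent.H41.TC.Step
import Pool.Agent.H41.TC.Conv

/-!
# Two subdigraphs of large minimum outdegree, almost disjoint on a prescribed set of vertices
-/

set_option autoImplicit false

namespace Pool.Agent.Results.MP_36dd09_co.AlmostDisjoint

open Pool.H41.TC

/-- Every digraph with all outdegrees at least `3 (s + t) - 3` is the union of two nonempty
vertex sets, each inducing a subdigraph of minimum outdegree at least `s`, such that at most
`6 |A| / 4 ^ t` vertices of a prescribed set `A` lie in both. -/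
theorem result (s t : ℕ) (hs : 1 ≤ s) (ht : 1 ≤ t) (V : Type) [Finite V] [Nonempty V]
    (G : Digraph V) (hG : ∀ v, 3 * (s + t) ≤ {w : V | G.Adj v w}.ncard + 3) (A : Set V) :
    ∃ C D : Set V, C.Nonempty ∧ D.Nonempty ∧ C ∪ D = Set.univ ∧
      (∀ v ∈ C, s ≤ {w : V | w ∈ C ∧ G.Adj v w}.ncard) ∧
      (∀ v ∈ D, s ≤ {w : V | w ∈ D ∧ G.Adj v w}.ncard) ∧
      4 ^ t * (A ∩ C ∩ D).ncard ≤ 6 * A.ncard := by
  classical
  have : Fintype V := Fintype.ofFinite V
  obtain ⟨C, D, h1, h2, h3, h4, h5, h6⟩ := two_cores (Nb G) (s - 1) t ht (by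
    intro x
    have := hG x
    rw [nb_card] at this
    omega) (fs A)
  refine ⟨C, D, h1, h2, ?_, ?_, ?_, ?_⟩
  · rw [← Finset.coe_union, h3, Finset.coe_univ]
  · intro v hv
    rw [nb_inter]
    have := h4 v hv
    omega
  · intro v hv
    rw [nb_inter]
    have := h5 v hv
    omega
  · rw [fs_card A]
    refine le_trans ?_ h6
    have e : (A ∩ (C : Set V) ∩ (D : Set V)).ncard = (fs A ∩ C ∩ D).card := by
      rw [← Set.ncard_coe_finset, Finset.coe_inter, Finset.coe_inter, coe_fs]
    rw [e]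

end Pool.Agent.Results.MP_36dd09_co.AlmostDisjoint
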