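import Pool.Agent.H41.TC.Hub
import Pool.Agent.H41.TC.Conv

/-!
# Two subdigraphs of large minimum outdegree that share only few vertices of huge indegree
-/

set_option autoImplicit false

namespace Pool.Agent.Results.MP_36dd09_co.HubIntersection

open Pool.H41.TC

/-- Every digraph with all outdegrees at least `100 s` is the union of two nonempty vertex sets,
each inducing a subdigraph of minimum outdegree at least `s`, whose intersection consists of
vertices of indegree larger than `512 ^ s` and contains at most the `6 / 1024 ^ s`-th part of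
all such vertices. -/
theorem result (s : ℕ) (hs : 1 ≤ s) (V : Type) [Finite V] [Nonempty V]
    (G : Digraph V) (hG : ∀ v, 100 * s ≤ {w : V | G.Adj v w}.ncard) :
    ∃ C D : Set V, C.Nonempty ∧ D.Nonempty ∧ C ∪ D = Set.univ ∧
      (∀ v ∈ C, s ≤ {w : V | w ∈ C ∧ G.Adj v w}.ncard) ∧
      (∀ v ∈ D, s ≤ {w : V | w ∈ D ∧ G.Adj v w}.ncard) ∧
      (∀ w ∈ C ∩ D, 512 ^ s < {v : V | G.Adj v w}.ncard) ∧
      1024 ^ s * (C ∩ D).ncard ≤ 6 * {w : V | 512 ^ s < {v : V | G.Adj v w}.ncard}.ncard := by
  classical
  have : Fintype V := Fintype.ofFinite V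
  have hsub : ∀ v, ∃ S : Finset V, S ⊆ Nb G v ∧ S.card = 100 * s := by
    intro v
    have := hG v
    rw [nb_card] at this
    exact Finset.exists_subset_card_eq this
  choose N hN1 hN2 using hsub
  have hH : ∀ w, w ∉ fs {w : V | 512 ^ s < {v : V | G.Adj v w}.ncard} →
      (Finset.univ.filter (fun v => w ∈ N v)).card ≤ 512 ^ s := by
    intro w hw
    rw [mem_fs, Set.mem_setOf_eq, not_lt] at hw
    refine le_trans ?_ hw
    rw [← Set.ncard_coe_finset]
    apply Set.ncard_le_ncard _ (Set.toFinite _)
    intro v hv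
    rw [Finset.mem_coe, Finset.mem_filter] at hv
    have := hN1 v hv.2
    unfold Nb at this
    rw [Finset.mem_filter] at this
    exact this.2
  obtain ⟨C, D, h1, h2, h3, h4, h5, h6, h7⟩ := hubs N s hs hN2 _ hH
  refine ⟨C, D, h1, h2, ?_, ?_, ?_, ?_, ?_⟩
  · rw [← Finset.coe_union, h3, Finset.coe_univ]
  · intro v hv
    rw [nb_inter]
    exact (h4 v hv).trans (Finset.card_le_card (Finset.inter_subset_inter_right (hN1 v)))
  · intro v hv
    rw [nb_inter]
    exact (h5 v hv).trans (Finset.card_le_card (Finset.inter_subset_inter_right (hN1 v)))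
  · intro w hw
    have hw' : w ∈ C ∩ D := by
      rw [Finset.mem_inter]; exact hw
    have := h6 hw'
    rw [mem_fs] at this
    exact this
  · rw [fs_card {w : V | 512 ^ s < {v : V | G.Adj v w}.ncard}]
    refine le_trans ?_ h7
    have e : ((C : Set V) ∩ (D : Set V)).ncard = (C ∩ D).card := by
      rw [← Set.ncard_coe_finset, Finset.coe_inter]
    rw [e]

end Pool.Agent.Results.MP_36dd09_co.HubIntersection
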