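import Mathlib

/-!
# A digraph with all outdegrees 5 and no two disjoint subdigraphs of minimum outdegree 2

The circulant digraph on `Fin 9` with steps `1, 2, 4, 5, 6`.
-/

set_option autoImplicit false

namespace Pool.Agent.Results.MP_36dd09_co.NineVertexOutdegreeFive

/-- The circulant digraph on nine vertices with steps 1, 2, 4, 5, 6. -/
def C9 : Digraph (Fin 9) where
  Adj v w := w = v + 1 ∨ w = v + 2 ∨ w = v + 4 ∨ w = v + 5 ∨ w = v + 6

instance : DecidableRel C9.Adj := fun v w => by unfold C9; infer_instance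

/-- at least two of five booleans -/
def two (a b c d e : Bool) : Bool :=
  (a && (b || c || d || e)) || (b && (c || d || e)) || (c && (d || e)) || (d && e)

/-- boolean version of the property of being a 2-core -/
def core (a0 a1 a2 a3 a4 a5 a6 a7 a8 : Bool) : Bool :=
  (!a0 || two a1 a2 a4 a5 a6) && (!a1 || two a2 a3 a5 a6 a7) && (!a2 || two a3 a4 a6 a7 a8) &&
  (!a3 || two a4 a5 a7 a8 a0) && (!a4 || two a5 a6 a8 a0 a1) && (!a5 || two a6 a7 a0 a1 a2) &&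
  (!a6 || two a7 a8 a1 a2 a3) && (!a7 || two a8 a0 a2 a3 a4) && (!a8 || two a0 a1 a3 a4 a5)

/-- at least one boolean is true -/
def some (a0 a1 a2 a3 a4 a5 a6 a7 a8 : Bool) : Bool :=
  a0 || a1 || a2 || a3 || a4 || a5 || a6 || a7 || a8

/-- a boolean predicate holds for both booleans -/
def allB (f : Bool → Bool) : Bool := f true && f false

theorem allB_iff (f : Bool → Bool) : allB f = true ↔ ∀ b, f b = true := by
  unfold allB
  simp only [Bool.and_eq_true]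
  constructor
  · rintro ⟨h1, h2⟩ b
    cases b
    · exact h2
    · exact h1
  · intro h
    exact ⟨h true, h false⟩

/-- second half of the check: for a given `a`, no disjoint nonempty core `b` -/
def chk2 (a0 a1 a2 a3 a4 a5 a6 a7 a8 : Bool) : Bool :=
  allB fun b0 => (a0 && b0) || allB fun b1 => (a1 && b1) || allB fun b2 => (a2 && b2) ||
  allB fun b3 => (a3 && b3) || allB fun b4 => (a4 && b4) || allB fun b5 => (a5 && b5) ||
  allB fun b6 => (a6 && b6) || allB fun b7 => (a7 && b7) || allB fun b8 => (a8 && b8) ||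
  (!core b0 b1 b2 b3 b4 b5 b6 b7 b8 || !some b0 b1 b2 b3 b4 b5 b6 b7 b8)

/-- the whole check -/
def chk1 : Bool :=
  allB fun a0 => allB fun a1 => allB fun a2 => allB fun a3 => allB fun a4 => allB fun a5 =>
  allB fun a6 => allB fun a7 => allB fun a8 =>
  (!core a0 a1 a2 a3 a4 a5 a6 a7 a8 || (!some a0 a1 a2 a3 a4 a5 a6 a7 a8 ||
    chk2 a0 a1 a2 a3 a4 a5 a6 a7 a8))

theorem chk1_true : chk1 = true := by decide +kernel

theorem check (a0 a1 a2 a3 a4 a5 a6 a7 a8 : Bool)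
    (ha : core a0 a1 a2 a3 a4 a5 a6 a7 a8 = true) (sa : some a0 a1 a2 a3 a4 a5 a6 a7 a8 = true)
    (b0 : Bool) (d0 : (a0 && b0) = false) (b1 : Bool) (d1 : (a1 && b1) = false)
    (b2 : Bool) (d2 : (a2 && b2) = false) (b3 : Bool) (d3 : (a3 && b3) = false)
    (b4 : Bool) (d4 : (a4 && b4) = false) (b5 : Bool) (d5 : (a5 && b5) = false)
    (b6 : Bool) (d6 : (a6 && b6) = false) (b7 : Bool) (d7 : (a7 && b7) = false)
    (b8 : Bool) (d8 : (a8 && b8) = false) (hb : core b0 b1 b2 b3 b4 b5 b6 b7 b8 = true) :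
    some b0 b1 b2 b3 b4 b5 b6 b7 b8 = false := by
  have h := chk1_true
  unfold chk1 chk2 at h
  simp only [allB_iff] at h
  have h' := h a0 a1 a2 a3 a4 a5 a6 a7 a8
  rw [ha, sa] at h'
  simp only [Bool.not_true, Bool.false_or, Bool.or_eq_true, allB_iff] at h'
  have h0 := (h' b0).resolve_left (by rw [d0]; decide) b1
  have h1 := h0.resolve_left (by rw [d1]; decide) b2
  have h2 := h1.resolve_left (by rw [d2]; decide) b3
  have h3 := h2.resolve_left (by rw [d3]; decide) b4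
  have h4 := h3.resolve_left (by rw [d4]; decide) b5
  have h5 := h4.resolve_left (by rw [d5]; decide) b6
  have h6 := h5.resolve_left (by rw [d6]; decide) b7
  have h7 := h6.resolve_left (by rw [d7]; decide) b8
  have h8 := h7.resolve_left (by rw [d8]; decide)
  have h9 := h8.resolve_left (by rw [hb]; decide)
  simpa using h9

open Classical in
theorem ncard_eq (A : Set (Fin 9)) (v : Fin 9) :
    {w : Fin 9 | w ∈ A ∧ C9.Adj v w}.ncard =
      (if v + 1 ∈ A then 1 else 0) + (if v + 2 ∈ A then 1 else 0) + (if v + 4 ∈ A then 1 else 0)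
      + (if v + 5 ∈ A then 1 else 0) + (if v + 6 ∈ A then 1 else 0) := by
  rw [Set.ncard_eq_toFinset_card']
  have : ({w : Fin 9 | w ∈ A ∧ C9.Adj v w}.toFinset) =
      (({v + 1, v + 2, v + 4, v + 5, v + 6} : Finset (Fin 9)).filter (fun w => w ∈ A)) := by
    ext w
    rw [Set.mem_toFinset]
    simp [C9, and_comm]
    tauto
  rw [this, Finset.card_filter]
  have hd : ∀ v : Fin 9, v + 1 ∉ ({v + 2, v + 4, v + 5, v + 6} : Finset (Fin 9)) ∧
      v + 2 ∉ ({v + 4, v + 5, v + 6} : Finset (Fin 9)) ∧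
      v + 4 ∉ ({v + 5, v + 6} : Finset (Fin 9)) ∧
      v + 5 ∉ ({v + 6} : Finset (Fin 9)) := by decide
  obtain ⟨h1, h2, h3, h4⟩ := hd v
  rw [Finset.sum_insert h1, Finset.sum_insert h2, Finset.sum_insert h3, Finset.sum_insert h4,
    Finset.sum_singleton]
  ring

open Classical in
theorem core_of (A : Set (Fin 9))
    (h : ∀ v ∈ A, 2 ≤ {w : Fin 9 | w ∈ A ∧ C9.Adj v w}.ncard) :
    core (decide (0 ∈ A)) (decide (1 ∈ A)) (decide (2 ∈ A)) (decide (3 ∈ A)) (decide (4 ∈ A))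
      (decide (5 ∈ A)) (decide (6 ∈ A)) (decide (7 ∈ A)) (decide (8 ∈ A)) = true := by
  have key : ∀ (v x1 x2 x3 x4 x5 : Fin 9), v + 1 = x1 → v + 2 = x2 → v + 4 = x3 → v + 5 = x4 →
      v + 6 = x5 → (!decide (v ∈ A) || two (decide (x1 ∈ A)) (decide (x2 ∈ A)) (decide (x3 ∈ A))
        (decide (x4 ∈ A)) (decide (x5 ∈ A))) = true := by
    intro v x1 x2 x3 x4 x5 e1 e2 e3 e4 e5
    subst e1 e2 e3 e4 e5
    by_cases hv : v ∈ A
    · have := h v hv
      rw [ncard_eq] at this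
      unfold two
      by_cases h1 : v + 1 ∈ A <;> by_cases h2 : v + 2 ∈ A <;> by_cases h3 : v + 4 ∈ A <;>
        by_cases h4 : v + 5 ∈ A <;> by_cases h5 : v + 6 ∈ A <;>
        simp [h1, h2, h3, h4, h5] at this ⊢
    · simp [hv]
  unfold core
  simp only [Bool.and_eq_true]
  refine ⟨⟨⟨⟨⟨⟨⟨⟨key 0 _ _ _ _ _ ?_ ?_ ?_ ?_ ?_, key 1 _ _ _ _ _ ?_ ?_ ?_ ?_ ?_⟩,
    key 2 _ _ _ _ _ ?_ ?_ ?_ ?_ ?_⟩, key 3 _ _ _ _ _ ?_ ?_ ?_ ?_ ?_⟩,
    key 4 _ _ _ _ _ ?_ ?_ ?_ ?_ ?_⟩, key 5 _ _ _ _ _ ?_ ?_ ?_ ?_ ?_⟩,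
    key 6 _ _ _ _ _ ?_ ?_ ?_ ?_ ?_⟩, key 7 _ _ _ _ _ ?_ ?_ ?_ ?_ ?_⟩,
    key 8 _ _ _ _ _ ?_ ?_ ?_ ?_ ?_⟩ <;> rfl

theorem no_two (A B : Set (Fin 9)) (hA : A.Nonempty) (hB : B.Nonempty) (hAB : Disjoint A B)
    (h1 : ∀ v ∈ A, 2 ≤ {w : Fin 9 | w ∈ A ∧ C9.Adj v w}.ncard)
    (h2 : ∀ v ∈ B, 2 ≤ {w : Fin 9 | w ∈ B ∧ C9.Adj v w}.ncard) : False := by
  classical
  have sm : ∀ S : Set (Fin 9), S.Nonempty → some (decide (0 ∈ S)) (decide (1 ∈ S))
      (decide (2 ∈ S)) (decide (3 ∈ S)) (decide (4 ∈ S)) (decide (5 ∈ S)) (decide (6 ∈ S))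
      (decide (7 ∈ S)) (decide (8 ∈ S)) = true := by
    rintro S ⟨x, hx⟩
    unfold some
    fin_cases x <;> simp_all
  have dj : ∀ i : Fin 9, (decide (i ∈ A) && decide (i ∈ B)) = false := by
    intro i
    by_contra hcon
    simp only [Bool.not_eq_false, Bool.and_eq_true, decide_eq_true_eq] at hcon
    exact Set.disjoint_left.mp hAB hcon.1 hcon.2
  have := check _ _ _ _ _ _ _ _ _ (core_of A h1) (sm A hA) _ (dj 0) _ (dj 1) _ (dj 2) _ (dj 3)
    _ (dj 4) _ (dj 5) _ (dj 6) _ (dj 7) _ (dj 8) (core_of B h2)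
  rw [sm B hB] at this
  exact Bool.noConfusion this

theorem outdeg (v : Fin 9) : {w : Fin 9 | C9.Adj v w}.ncard = 5 := by
  have := ncard_eq Set.univ v
  simp only [Set.mem_univ, true_and, if_true] at this
  exact this

/-- There is a loopless digraph on nine vertices, all of whose outdegrees are exactly five, with
no two disjoint nonempty vertex sets each inducing a subdigraph of minimum outdegree at least two;
consequently every `k` that answers Q1 satisfies `6 ≤ k`. -/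
theorem result :
    (∃ G : Digraph (Fin 9), (∀ v, ¬ G.Adj v v) ∧ (∀ v, {w : Fin 9 | G.Adj v w}.ncard = 5) ∧
      ¬ ∃ A B : Set (Fin 9), A.Nonempty ∧ B.Nonempty ∧ Disjoint A B ∧
          (∀ v ∈ A, 2 ≤ {w : Fin 9 | w ∈ A ∧ G.Adj v w}.ncard) ∧
          (∀ v ∈ B, 2 ≤ {w : Fin 9 | w ∈ B ∧ G.Adj v w}.ncard)) ∧
    ∀ k : ℕ, (∀ (V : Type) [Finite V] [Nonempty V] (G : Digraph V),
        (∀ v, ¬ G.Adj v v) →
        (∀ v, k ≤ {w : V | G.Adj v w}.ncard) →
        ∃ A B : Set V, A.Nonempty ∧ B.Nonempty ∧ Disjoint A B ∧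
          (∀ v ∈ A, 2 ≤ {w : V | w ∈ A ∧ G.Adj v w}.ncard) ∧
          (∀ v ∈ B, 2 ≤ {w : V | w ∈ B ∧ G.Adj v w}.ncard)) → 6 ≤ k := by
  have hl : ∀ v, ¬ C9.Adj v v := by decide
  refine ⟨⟨C9, hl, outdeg, ?_⟩, ?_⟩
  · rintro ⟨A, B, hA, hB, hAB, h1, h2⟩
    exact no_two A B hA hB hAB h1 h2
  · intro k hk
    by_contra hlt
    obtain ⟨A, B, hA, hB, hAB, h1, h2⟩ := hk (Fin 9) C9 hl (fun v => by rw [outdeg]; omega)
    exact no_two A B hA hB hAB h1 h2

end Pool.Agent.Results.MP_36dd09_co.NineVertexOutdegreeFive
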