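import Pool.Agent.H41.TC.Iter
import Pool.Agent.H41.TC.Conv

/-!
# A subdigraph of minimum outdegree `s` with a small trace on each of finitely many sets
-/

set_option autoImplicit false

namespace Pool.Agent.Results.MP_36dd09_co.SmallTraces

open Pool.H41.TC

/-- Every digraph with all outdegrees at least `3 ^ (m L) (s + 3) - 3` has, for any `L` sets of
vertices, a nonempty vertex set inducing a subdigraph of minimum outdegree at least `s` and
containing at most `(3 / 5) ^ m` of the vertices of each of the `L` sets. -/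
theorem result (s m L : ℕ) (hs : 1 ≤ s) (V : Type) [Finite V] [Nonempty V]
    (G : Digraph V) (hG : ∀ v, 3 ^ (m * L) * (s + 3) ≤ {w : V | G.Adj v w}.ncard + 3)
    (A : Fin L → Set V) :
    ∃ C : Set V, C.Nonempty ∧ (∀ v ∈ C, s ≤ {w : V | w ∈ C ∧ G.Adj v w}.ncard) ∧
      ∀ i, 5 ^ m * (A i ∩ C).ncard ≤ 3 ^ m * (A i).ncard := by
  classical
  have : Fintype V := Fintype.ofFinite V
  obtain ⟨C, _, h1, h2, h3⟩ := many (Nb G) s hs m L (fun i => fs (A i)) Finset.univ
    Finset.univ_nonempty (by
      intro x _
      have := hG x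
      rw [nb_card] at this
      rw [Finset.inter_univ]; exact this)
  refine ⟨C, h1, ?_, ?_⟩
  · intro v hv
    rw [nb_inter]
    exact h2 v hv
  · intro i
    have h := h3 i
    rw [Finset.inter_univ] at h
    rw [fs_card (A i)]
    have e : (A i ∩ (C : Set V)).ncard = (fs (A i) ∩ C).card := by
      rw [← Set.ncard_coe_finset, Finset.coe_inter, coe_fs]
    rw [e]; exact h

end Pool.Agent.Results.MP_36dd09_co.SmallTraces
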